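import Mathlib
import Pool.Agent.Q280.Conn.Basic
import Pool.Agent.Q280.Conn.A
import Pool.Agent.Q280.Conn.B
import Pool.Agent.Q280.Conn.C
import Pool.Agent.Q280.Conn.D
import Pool.Agent.Q280.Conn.E
import Pool.Agent.Q280.Conn.F

set_option autoImplicit false

/-!
# A large prime with a connected quadratic functional graph whose cycle is a fixed point

For the prime `p = 1113643` and `a = 1 / 4` every element of `ZMod p` reaches the fixed point
`1 / 2` of `x ↦ x² + a`.
-/

namespace Pool.Agent.Results.MP_28a92f_nt.ConnectedExample

open Q280.Conn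

/-- The underlying undirected graph of the functional graph of `x ↦ x² + a` on `ZMod p`:
two distinct elements are adjacent if one of them is the image of the other. -/
def functionalGraph (p : ℕ) (a : ZMod p) : SimpleGraph (ZMod p) :=
  SimpleGraph.fromRel (fun x y => y = x ^ 2 + a)

/-- The only cycle of the functional graph of `x ↦ x² + a` is a fixed point:
there is a fixed point, and each periodic point is equal to it. -/
def OnlyCycleIsFixedPoint (p : ℕ) (a : ZMod p) : Prop :=
  ∃ x₀ : ZMod p, x₀ ^ 2 + a = x₀ ∧
    ∀ y : ZMod p, ∀ n : ℕ, 0 < n → (fun x : ZMod p => x ^ 2 + a)^[n] y = y → y = x₀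

lemma conj_iter (y : ZMod 1113643) (n : ℕ) :
    (fun x : ZMod 1113643 => x ^ 2 + 278411)^[n] (y + 556822) =
      (H 1113643)^[n] y + 556822 := by
  induction n with
  | zero => simp
  | succ n ih =>
    rw [Function.iterate_succ_apply', Function.iterate_succ_apply', ih]
    generalize (H 1113643)^[n] y = z
    unfold H
    have h1 : (556822 : ZMod 1113643) * 2 = 1 := by decide
    have h2 : (556822 : ZMod 1113643) ^ 2 + 278411 = 556822 := by decide
    linear_combination z * h1 + h2

instance : NeZero (1113643 : ℕ) := ⟨by norm_num⟩

lemma drops (m : ℕ) (h1 : 1 ≤ m) (h2 : 2 * m < 1113643) : Drops 1113643 m (m : ZMod 1113643) := by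
  have hp : 0 < 1113643 := by norm_num
  by_cases c1 : m < 1025
  · exact blk_spec 10 1 b1 m (by omega) (by norm_num; omega) hp h2
  by_cases c2 : m < 2049
  · exact blk_spec 10 1025 b1025 m (by omega) (by norm_num; omega) hp h2
  by_cases c3 : m < 4097
  · exact blk_spec 11 2049 b2049 m (by omega) (by norm_num; omega) hp h2
  by_cases c4 : m < 8193
  · exact blk_spec 12 4097 b4097 m (by omega) (by norm_num; omega) hp h2
  by_cases c5 : m < 16385
  · exact blk_spec 13 8193 b8193 m (by omega) (by norm_num; omega) hp h2
  by_cases c6 : m < 32769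
  · exact blk_spec 14 16385 b16385 m (by omega) (by norm_num; omega) hp h2
  by_cases c7 : m < 65537
  · exact blk_spec 15 32769 b32769 m (by omega) (by norm_num; omega) hp h2
  by_cases c8 : m < 131073
  · exact blk_spec 16 65537 b65537 m (by omega) (by norm_num; omega) hp h2
  by_cases c9 : m < 262145
  · exact blk_spec 17 131073 b131073 m (by omega) (by norm_num; omega) hp h2
  by_cases c10 : m < 524289
  · exact blk_spec 18 262145 b262145 m (by omega) (by norm_num; omega) hp h2
  · exact blk_spec 15 524289 b524289 m (by omega) (by norm_num; omega) hp h2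

/-- every orbit ends in the fixed point -/
lemma reaches (x : ZMod 1113643) :
    ∃ n, (fun x : ZMod 1113643 => x ^ 2 + 278411)^[n] x = 556822 := by
  obtain ⟨k, hk⟩ := reach_all (p := 1113643) (by norm_num) drops (x - 556822)
  refine ⟨k, ?_⟩
  have := conj_iter (x - 556822) k
  rw [sub_add_cancel, hk, zero_add] at this
  exact this

lemma fixed : (fun x : ZMod 1113643 => x ^ 2 + 278411) 556822 = 556822 := by decide

lemma reachable (x : ZMod 1113643) (n : ℕ) :
    (functionalGraph 1113643 278411).Reachable x
      ((fun x : ZMod 1113643 => x ^ 2 + 278411)^[n] x) := by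
  induction n with
  | zero => exact SimpleGraph.Reachable.refl x
  | succ n ih =>
    refine ih.trans ?_
    rw [Function.iterate_succ_apply']
    set z := (fun x : ZMod 1113643 => x ^ 2 + 278411)^[n] x
    by_cases h : z = z ^ 2 + 278411
    · show (functionalGraph 1113643 278411).Reachable z (z ^ 2 + 278411)
      rw [← h]
    · apply SimpleGraph.Adj.reachable
      unfold functionalGraph
      rw [SimpleGraph.fromRel_adj]
      exact ⟨h, Or.inl rfl⟩

/-- There are a prime `p > 7` and `a : ZMod p` such that the functional graph of `x ↦ x² + a` on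
`ZMod p` is connected and its only cycle is a fixed point. -/
theorem result : ∃ p : ℕ, p.Prime ∧ 7 < p ∧ ∃ a : ZMod p,
    (functionalGraph p a).Connected ∧ OnlyCycleIsFixedPoint p a := by
  refine ⟨1113643, by norm_num, by norm_num, 278411, ?_, 556822, fixed, ?_⟩
  · have : Nonempty (ZMod 1113643) := ⟨0⟩
    refine SimpleGraph.Connected.mk ?_
    intro x y
    obtain ⟨n, hn⟩ := reaches x
    obtain ⟨m, hm⟩ := reaches y
    have h1 := reachable x n
    have h2 := reachable y m
    rw [hn] at h1
    rw [hm] at h2
    exact h1.trans h2.symm
  · intro y n hn hy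
    obtain ⟨k, hk⟩ := reaches y
    have h1 : ∀ j : ℕ, (fun x : ZMod 1113643 => x ^ 2 + 278411)^[k + j] y = 556822 := by
      intro j
      induction j with
      | zero => exact hk
      | succ j ih =>
        rw [← add_assoc, Function.iterate_succ_apply', ih]
        exact fixed
    have h2 : ∀ j : ℕ, (fun x : ZMod 1113643 => x ^ 2 + 278411)^[n * j] y = y := by
      intro j
      induction j with
      | zero => simp
      | succ j ih =>
        rw [Nat.mul_succ, Function.iterate_add_apply, hy, ih]
    have h3 := h2 k
    have h4 := h1 (n * k - k)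
    have : k + (n * k - k) = n * k := by
      have : k ≤ n * k := Nat.le_mul_of_pos_left k hn
      omega
    rw [this, h3] at h4
    exact h4

end Pool.Agent.Results.MP_28a92f_nt.ConnectedExample
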